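import Pool.Agent.Run7.h932.DS.Stm

/-! Pieces COL and EXT of the project DS of helper932. -/

set_option autoImplicit false

namespace Run7.h441.DS

open Finset Classical Run7.h932.DS

theorem t_COL : S_COL := by
  intro n m k v π hloop
  have hadj : ∀ x y : Fin n, (gr v π).Adj x y ↔ x ≠ y ∧
      ((∃ j, x = v (π (j, false)) ∧ y = v (π (j, true))) ∨
        ∃ j, y = v (π (j, false)) ∧ x = v (π (j, true))) := by
    intro x y
    unfold gr
    rw [SimpleGraph.fromRel_adj]
  let e : {σ // σ ∈ cols k v π} ≃ (gr v π).Coloring (Fin k) :=
    { toFun := fun σ => SimpleGraph.Coloring.mk σ.1 (by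
        intro x y h
        have hσ : Prp v π σ.1 := by
          have := σ.2
          unfold cols at this
          exact (mem_filter.1 this).2
        rcases (hadj x y).1 h with ⟨_, ⟨j, rfl, rfl⟩ | ⟨j, rfl, rfl⟩⟩
        · exact hσ j
        · exact (hσ j).symm)
      invFun := fun c => ⟨fun x => c x, by
        unfold cols
        refine mem_filter.2 ⟨mem_univ _, ?_⟩
        intro j
        exact c.valid ((hadj _ _).2 ⟨hloop j, Or.inl ⟨j, rfl, rfl⟩⟩)⟩
      left_inv := fun σ => rfl
      right_inv := fun c => rfl }
  rw [← Nat.card_congr e, Nat.card_eq_fintype_card, Fintype.card_coe]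

theorem t_EXT : S_EXT := by
  intro r n m k v π π' X hX ⟨c, hc⟩
  have hprp : ∀ σ : Fin n → Fin k, Prp v π' σ →
      Prp v π (fun x => if x ∈ X then Fin.natAdd k (c x) else Fin.castAdd r (σ x)) := by
    intro σ hσ j
    have hne : ∀ (a : Fin r) (b : Fin k), Fin.natAdd k a ≠ Fin.castAdd r b := by
      intro a b h
      have := congrArg Fin.val h
      simp at this
      omega
    by_cases h1 : v (π (j, false)) ∈ X <;> by_cases h2 : v (π (j, true)) ∈ X
    · simp only [h1, h2, if_true]
      intro h
      exact hc j h1 h2 (by
        have := congrArg Fin.val h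
        simp at this
        exact Fin.ext this)
    · simp only [h1, h2, if_true, if_false]
      exact hne _ _
    · simp only [h1, h2, if_true, if_false]
      exact (hne _ _).symm
    · simp only [h1, h2, if_false]
      intro h
      have hs : σ (v (π (j, false))) = σ (v (π (j, true))) := by
        have := congrArg Fin.val h
        simp at this
        exact Fin.ext this
      have hf : π (j, false) = π' (j, false) := by
        by_contra h3
        exact h1 (hX j (Or.inl h3)).1
      have ht : π (j, true) = π' (j, true) := by
        by_contra h3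
        exact h1 (hX j (Or.inr h3)).1
      rw [hf, ht] at hs
      exact hσ j hs
  let f : {σ // σ ∈ cols k v π'} → (X → Fin k) × {σ // σ ∈ cols (k + r) v π} := fun σ =>
    (fun x => σ.1 x.1, ⟨fun x => if x ∈ X then Fin.natAdd k (c x) else Fin.castAdd r (σ.1 x), by
      have := σ.2
      unfold cols at this ⊢
      exact mem_filter.2 ⟨mem_univ _, hprp _ (mem_filter.1 this).2⟩⟩)
  have hf : Function.Injective f := by
    intro σ τ h
    apply Subtype.ext
    funext x
    have h1 := congrArg Prod.fst h
    have h2 := congrArg (fun z => z.2.1) h
    by_cases hx : x ∈ X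
    · exact congrFun h1 ⟨x, hx⟩
    · have := congrFun h2 x
      simp only [f, hx, if_false] at this
      have := congrArg Fin.val this
      simp at this
      exact Fin.ext this
  have := Fintype.card_le_of_injective f hf
  rw [Fintype.card_prod, Fintype.card_fun, Fintype.card_coe, Fintype.card_coe, Fintype.card_coe,
    Fintype.card_fin] at this
  exact this

end Run7.h441.DS
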