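import Pool.Agent.Run7.h932.DS.Stm

/-! Piece DEG of the project DS of helper932. -/

set_option autoImplicit false

namespace Run7.h441.DS

open Finset Classical Run7.h932.DS

theorem t_DEG : S_DEG := by
  intro r n m v π X hr hloop
  induction X using Finset.strongInduction with
  | H X ih =>
    intro hX
    rcases X.eq_empty_or_nonempty with rfl | hne
    · exact ⟨fun _ => ⟨0, hr⟩, fun j h => absurd h (Finset.notMem_empty _)⟩
    -- a vertex of small degree
    set E : Finset (Fin m) := univ.filter fun j : Fin m => v (π (j, false)) ∈ X ∧ v (π (j, true)) ∈ X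
      with hE
    set D : Fin n → Finset (Fin m) := fun x => E.filter fun j =>
      x = v (π (j, false)) ∨ x = v (π (j, true)) with hD
    have hsum : ∑ x ∈ X, (D x).card ≤ 2 * E.card := by
      have h1 : ∑ x ∈ X, (D x).card = ∑ j ∈ E, (X.filter fun x =>
          x = v (π (j, false)) ∨ x = v (π (j, true))).card := by
        simp only [hD, Finset.card_filter]
        exact Finset.sum_comm
      rw [h1]
      calc _ ≤ ∑ j ∈ E, 2 := by
            refine Finset.sum_le_sum (fun j _ => ?_)
            calc _ ≤ ({v (π (j, false)), v (π (j, true))} : Finset (Fin n)).card := by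
                  apply Finset.card_le_card
                  intro x hx
                  rcases (mem_filter.1 hx).2 with h | h <;> simp [h]
              _ ≤ 2 := Finset.card_le_two
        _ = 2 * E.card := by simp; ring
    have hex : ∃ x ∈ X, (D x).card < r := by
      by_contra hcon
      push Not at hcon
      have h2 : r * X.card ≤ ∑ x ∈ X, (D x).card := by
        calc r * X.card = ∑ x ∈ X, r := by simp; ring
          _ ≤ _ := Finset.sum_le_sum hcon
      have h3 := hX X (Finset.Subset.refl _) hne
      have h4 : eU v π X = E.card := rfl
      omega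
    obtain ⟨x, hxX, hxD⟩ := hex
    obtain ⟨c, hc⟩ := ih (X.erase x) (Finset.erase_ssubset hxX)
      (fun U hU hUne => hX U (hU.trans (Finset.erase_subset _ _)) hUne)
    set oth : Fin m → Fin n := fun j => if v (π (j, false)) = x then v (π (j, true)) else v (π (j, false))
      with hoth
    obtain ⟨a, ha⟩ : ∃ a : Fin r, a ∉ (D x).image fun j => c (oth j) := by
      by_contra hcon
      push Not at hcon
      have h5 : (univ : Finset (Fin r)).card ≤ ((D x).image fun j => c (oth j)).card :=
        Finset.card_le_card (fun a _ => hcon a)
      have h6 := Finset.card_image_le (s := D x) (f := fun j => c (oth j))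
      rw [Finset.card_univ, Fintype.card_fin] at h5
      omega
    refine ⟨Function.update c x a, ?_⟩
    intro j h1 h2
    have hjE : j ∈ E := mem_filter.2 ⟨mem_univ _, h1, h2⟩
    by_cases e1 : v (π (j, false)) = x
    · have e2 : v (π (j, true)) ≠ x := fun h => hloop j (e1.trans h.symm)
      rw [e1, Function.update_self, Function.update_of_ne e2]
      intro h
      apply ha
      refine mem_image.2 ⟨j, mem_filter.2 ⟨hjE, Or.inl e1.symm⟩, ?_⟩
      simp only [hoth, e1, if_true]
      exact h.symm
    · by_cases e2 : v (π (j, true)) = x
      · rw [e2, Function.update_self, Function.update_of_ne e1]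
        intro h
        apply ha
        refine mem_image.2 ⟨j, mem_filter.2 ⟨hjE, Or.inr e2.symm⟩, ?_⟩
        simp only [hoth, e1, if_false]
        exact h
      · rw [Function.update_of_ne e1, Function.update_of_ne e2]
        exact hc j (Finset.mem_erase.2 ⟨e1, h1⟩) (Finset.mem_erase.2 ⟨e2, h2⟩)

end Run7.h441.DS
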