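import Pool.Agent.Run7.h932.DS.Stm

/-! Piece LB of the project DS of helper932. -/

set_option autoImplicit false

namespace Run7.h441.DS

open Finset Classical Run7.h932.DS

/-- The permutations with `κ ∘ π = c`. -/
noncomputable def fb {m k : ℕ} (κ c : HE m → Fin k) : Finset (Equiv.Perm (HE m)) :=
  univ.filter fun π => (fun h => κ (π h)) = c

lemma fb_card {m k : ℕ} (κ : HE m → Fin k) (π₀ : Equiv.Perm (HE m)) :
    (fb κ (fun h => κ (π₀ h))).card = (fb κ κ).card := by
  symm
  refine Finset.card_bij' (fun g _ => g * π₀) (fun π _ => π * π₀⁻¹) ?_ ?_ ?_ ?_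
  · intro g hg
    have h1 := (mem_filter.1 hg).2
    refine mem_filter.2 ⟨mem_univ _, ?_⟩
    funext h
    exact congrFun h1 (π₀ h)
  · intro π hπ
    have h1 := (mem_filter.1 hπ).2
    refine mem_filter.2 ⟨mem_univ _, ?_⟩
    funext h
    have := congrFun h1 (π₀⁻¹ h)
    simpa using this
  · intro g _
    simp
  · intro π _
    simp

lemma exists_perm {m k : ℕ} (κ c : HE m → Fin k) (h : ∀ a, cnt c a = cnt κ a) :
    ∃ π₀ : Equiv.Perm (HE m), c = fun x => κ (π₀ x) := by
  have e : ∀ a, Nonempty ({x // c x = a} ≃ {x // κ x = a}) := by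
    intro a
    apply Fintype.card_eq.1
    rw [Fintype.card_subtype, Fintype.card_subtype]
    have h1 := h a
    unfold cnt at h1
    convert h1
  refine ⟨Equiv.ofFiberEquiv (fun a => (e a).some), ?_⟩
  funext x
  exact (Equiv.ofFiberEquiv_map (fun a => (e a).some) x).symm

theorem t_LB : S_LB := by
  intro k m κ _
  set F := (fb κ κ).card with hF
  have hle : ∀ c : HE m → Fin k, (fb κ c).card ≤ F := by
    intro c
    rcases (fb κ c).eq_empty_or_nonempty with h | ⟨π₀, h⟩
    · rw [h]; simp
    · have h1 := (mem_filter.1 h).2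
      rw [← h1, fb_card]
  have h1 : (2 * m).factorial ≤ k ^ (2 * m) * F := by
    have e1 : (2 * m).factorial = (univ : Finset (Equiv.Perm (HE m))).card := by
      rw [Finset.card_univ, Fintype.card_perm]
      congr 1
      simp [mul_comm]
    rw [e1, Finset.card_eq_sum_card_fiberwise (f := fun π : Equiv.Perm (HE m) => fun h => κ (π h))
      (t := univ) (by intro x _; simp)]
    calc _ ≤ ∑ c : HE m → Fin k, F := Finset.sum_le_sum (fun c _ => hle c)
      _ = k ^ (2 * m) * F := by
        rw [Finset.sum_const, Finset.card_univ, Fintype.card_fun]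
        simp [mul_comm]
  set Cc : Finset (HE m → Fin k) := univ.filter fun c : HE m → Fin k =>
      (∀ a, cnt c a = cnt κ a) ∧ ∀ j, c (j, false) ≠ c (j, true) with hCc
  have h2 : Cc.card * F ≤ (univ.filter fun π : Equiv.Perm (HE m) =>
      ∀ j, κ (π (j, false)) ≠ κ (π (j, true))).card := by
    have e2 : ∑ c ∈ Cc, (fb κ c).card = Cc.card * F := by
      rw [Finset.sum_const_nat]
      intro c hc
      obtain ⟨π₀, hπ⟩ := exists_perm κ c (mem_filter.1 hc).2.1
      rw [hπ, fb_card]
    rw [← e2, ← Finset.card_biUnion]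
    · apply Finset.card_le_card
      intro π hπ
      obtain ⟨c, hc, hπc⟩ := Finset.mem_biUnion.1 hπ
      refine mem_filter.2 ⟨mem_univ _, ?_⟩
      intro j
      have h3 := (mem_filter.1 hπc).2
      have h4 := (mem_filter.1 hc).2.2 j
      rw [← h3] at h4
      exact h4
    · intro c _ c' _ hcc
      rw [Function.onFun, Finset.disjoint_left]
      intro π h3 h4
      exact hcc ((mem_filter.1 h3).2.symm.trans (mem_filter.1 h4).2)
  calc (2 * m).factorial * Cc.card ≤ (k ^ (2 * m) * F) * Cc.card := Nat.mul_le_mul_right _ h1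
    _ = k ^ (2 * m) * (Cc.card * F) := by ring
    _ ≤ _ := Nat.mul_le_mul_left _ h2

end Run7.h441.DS
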